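import Pool.Agent.X321.NT.Sub
set_option autoImplicit false

/-!
# Natural maps between rational Milnor K-groups of fields
-/

namespace Pool.Agent.X321.NT

open Pool.Agent.TH826.MK Pool.Agent.TH826.SX Pool.Agent.TH826.DC

/-- natural `ℚ`-linear maps `K_n^M(F)_ℚ → K_m^M(F)_ℚ` -/
structure KHom (n m : ℕ) where
  app : ∀ (F : Type) [Field F], KQ F n →ₗ[ℚ] KQ F m
  nat : ∀ (F F' : Type) [Field F] [Field F'] (g : F →+* F') (x : KQ F n),
    app F' (KQ.map n g x) = KQ.map m g (app F x)

section

variable {n m : ℕ}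

/-- the map `x ↦ T({t} ∪ x)` -/
noncomputable def KHom.U (T : KHom (n + 1) m) (F : Type) [Field F] :
    KQ F n →ₗ[ℚ] KQ (RatFunc F) m :=
  (T.app (RatFunc F)).comp ((cup (tt F)).comp (KQ.map n (RatFunc.C : F →+* RatFunc F)))

theorem KHom.U_apply (T : KHom (n + 1) m) (F : Type) [Field F] (x : KQ F n) :
    T.U F x = T.app (RatFunc F) (cup (tt F) (KQ.map n (RatFunc.C : F →+* RatFunc F) x)) := rfl

variable {F F' : Type} [Field F] [Field F']

theorem map_sc_cup (g : F →+* F') (c : F'ˣ) (x : KQ F n) :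
    KQ.map (n + 1) (sc g c) (cup (tt F) (KQ.map n (RatFunc.C : F →+* RatFunc F) x)) =
      KQ.map (n + 1) (RatFunc.C : F' →+* RatFunc F') (cup c (KQ.map n g x)) +
      cup (tt F') (KQ.map n (RatFunc.C : F' →+* RatFunc F') (KQ.map n g x)) := by
  rw [map_cup]
  have h := um_sc_tt g c
  rw [um] at h
  rw [h, cup_mul, map_cup, map_comp, map_comp, sc_comp_C]

theorem KHom.map_U (T : KHom (n + 1) m) (g : F →+* F') (c : F'ˣ) (x : KQ F n) :
    KQ.map m (sc g c) (T.U F x) =
      KQ.map m (RatFunc.C : F' →+* RatFunc F') (T.app F' (cup c (KQ.map n g x))) +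
      T.U F' (KQ.map n g x) := by
  rw [KHom.U_apply, ← T.nat, map_sc_cup, map_add, T.nat, ← KHom.U_apply]

theorem KHom.map_U_one (T : KHom (n + 1) m) (g : F →+* F') (x : KQ F n) :
    KQ.map m (sc g 1) (T.U F x) = T.U F' (KQ.map n g x) := by
  rw [T.map_U, cup_one, map_zero, map_zero, zero_add]

/-- the basic equation -/
theorem KHom.basic (T : KHom (n + 1) m) (x : KQ F n) :
    KQ.map m (sc (RatFunc.C : F →+* RatFunc F) (tt F)) (T.U F x) =
      KQ.map m (RatFunc.C : RatFunc F →+* RatFunc (RatFunc F)) (T.U F x) +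
      KQ.map m (sc (RatFunc.C : F →+* RatFunc F) 1) (T.U F x) := by
  rw [T.map_U, T.map_U_one, ← KHom.U_apply]

/-- the reduced natural map -/
noncomputable def KHom.red (T : KHom (n + 1) (m + 1)) : KHom n m where
  app F _ := ((LinearMap.snd ℚ (KQ F (m + 1)) (KQ F m)).comp
    (spr lc0 (m + 1) : KQ (RatFunc F) (m + 1) →ₗ[ℚ] KQ F (m + 1) × KQ F m)).comp (T.U F)
  nat F F' _ _ g x := by
    show (spr lc0 (m + 1) (T.U F' (KQ.map n g x))).2 = KQ.map m g (spr lc0 (m + 1) (T.U F x)).2
    rw [← T.map_U_one, spr_sc, Gc_apply]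
    rfl

theorem KHom.red_apply (T : KHom (n + 1) (m + 1)) (x : KQ F n) :
    T.red.app F x = (spr lc0 (m + 1) (T.U F x)).2 := rfl

theorem KHom.U_eq (T : KHom (n + 1) (m + 1)) (x : KQ F n) :
    T.U F x = cup (tt F) (KQ.map m (RatFunc.C : F →+* RatFunc F) (T.red.app F x)) := by
  have h := congrArg (fun z => (spr lc0 (m + 1) z).1) (T.basic x)
  simp only [map_add, Prod.fst_add] at h
  rw [spr_sc, spr_sc, spr_C, Gc_apply, Gc_apply] at h
  have h2 : KQ.map (m + 1) (RatFunc.C : F →+* RatFunc F) (spr lc0 (m + 1) (T.U F x)).1 +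
      cup (tt F) (KQ.map m (RatFunc.C : F →+* RatFunc F) (T.red.app F x)) =
      T.U F x + (KQ.map (m + 1) (RatFunc.C : F →+* RatFunc F) (spr lc0 (m + 1) (T.U F x)).1 +
      cup (1 : (RatFunc F)ˣ) (KQ.map m (RatFunc.C : F →+* RatFunc F) (T.red.app F x))) := h
  rw [cup_one, add_zero, add_comm (T.U F x)] at h2
  exact (add_left_cancel h2).symm

/-- natural maps are compatible with multiplication by symbols -/
theorem KHom.red_spec (T : KHom (n + 1) (m + 1)) (a : Fˣ) (x : KQ F n) :
    T.app F (cup a x) = cup a (T.red.app F x) := by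
  have h := T.map_U (RingHom.id F) a x
  rw [map_id, T.U_eq, map_sc_cup, map_id] at h
  exact (map_C_inj (m + 1) (add_right_cancel h)).symm

theorem K0_eq (x : KQ F 0) : ∃ q : ℚ, x = q • symb 1 := by
  obtain ⟨z, rfl⟩ := Submodule.mkQ_surjective _ x
  refine ⟨z 1, ?_⟩
  have hz : z = Finsupp.single 1 (z 1) := by
    refine Finsupp.ext fun a => ?_
    rw [show a = 1 from Subsingleton.elim _ _, Finsupp.single_eq_same]
  have h2 : (Finsupp.single (1 : Fin 0 → Fˣ) (z 1) : (Fin 0 → Fˣ) →₀ ℚ) =
      z 1 • Finsupp.single 1 1 := by rw [Finsupp.smul_single, smul_eq_mul, mul_one]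
  show KQ.mkQ z = z 1 • KQ.mkQ (Finsupp.single 1 1)
  rw [← map_smul, ← h2, ← hz]

theorem KHom.U_zero (T : KHom (n + 1) 0) (x : KQ F n) : T.U F x = 0 := by
  obtain ⟨q, hq⟩ := K0_eq (T.U F x)
  have h := T.basic x
  rw [hq, map_smul, map_smul, map_smul, map_symb_one, map_symb_one, map_symb_one] at h
  have h2 : q • (symb 1 : KQ (RatFunc (RatFunc F)) 0) = 0 := left_eq_add.1 h
  apply map_C_inj 0
  rw [hq, map_smul, map_symb_one, h2, map_zero]

theorem KHom.to_zero (T : KHom (n + 1) 0) (a : Fˣ) (x : KQ F n) : T.app F (cup a x) = 0 := by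
  have h := T.map_U (RingHom.id F) a x
  rw [map_id, T.U_zero, map_zero, add_zero] at h
  apply map_C_inj 0
  rw [← h, map_zero]

end

/-- iterated multiplication by symbols `{a_1} ∪ ... ∪ {a_n} ∪ z` -/
noncomputable def cups {F : Type} [Field F] {d : ℕ} :
    (n : ℕ) → (Fin n → Fˣ) → KQ F d →ₗ[ℚ] KQ F (d + n)
  | 0, _ => LinearMap.id
  | n + 1, a => (cup (a 0)).comp (cups n (Fin.tail a))

/-- natural maps `K_n → K_{d+n}` are multiplications by a natural element of `K_d` -/
theorem exists_kappa (d n : ℕ) : ∀ T : KHom n (d + n), ∃ κ : ∀ (F : Type) [Field F], KQ F d,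
    (∀ (F F' : Type) [Field F] [Field F'] (g : F →+* F'), KQ.map d g (κ F) = κ F') ∧
    ∀ (F : Type) [Field F] (a : Fin n → Fˣ), T.app F (symb a) = cups n a (κ F) := by
  induction n with
  | zero =>
    intro T
    refine ⟨fun F _ => T.app F (symb 1), ?_, ?_⟩
    · intro F F' _ _ g
      have h := T.nat F F' g (symb 1)
      rw [map_symb_one] at h
      exact h.symm
    · intro F _ a
      rw [show a = 1 from Subsingleton.elim _ _]
      rfl
  | succ n ih =>
    intro T
    obtain ⟨κ, h1, h2⟩ := ih (KHom.red T)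
    refine ⟨κ, h1, fun F _ a => ?_⟩
    rw [symb_succ]
    exact (KHom.red_spec T (a 0) (symb (Fin.tail a))).trans
      (congrArg (fun w => cup (a 0) w) (h2 F (Fin.tail a)))

/-- natural maps `K_{m+n+1} → K_m` are zero -/
theorem eq_zero (m n : ℕ) : ∀ T : KHom (n + 1 + m) m, ∀ (F : Type) [Field F]
    (x : KQ F (n + 1 + m)), T.app F x = 0 := by
  induction m with
  | zero =>
    intro T F _ x
    refine KQ_ext' (f := T.app F) (g := 0) (fun a => ?_) x
    rw [symb_succ, LinearMap.zero_apply]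
    exact KHom.to_zero T (a 0) (symb (Fin.tail a))
  | succ m ih =>
    intro T F _ x
    refine KQ_ext' (f := T.app F) (g := 0) (fun a => ?_) x
    rw [symb_succ, LinearMap.zero_apply]
    exact (KHom.red_spec T (a 0) (symb (Fin.tail a))).trans
      ((congrArg (fun w => cup (a 0) w) (ih (KHom.red T) F (symb (Fin.tail a)))).trans
        (map_zero _))

/-- natural endomorphisms of `K_0` -/
theorem scalar_zero (T : KHom 0 0) : ∃ q : ℕ → ℚ, ∀ (F : Type) [Field F],
    T.app F (symb 1) = q (ringChar F) • symb 1 := by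
  classical
  obtain ⟨q0, hq0⟩ := K0_eq (T.app ℚ (symb 1))
  have hp : ∀ p : ℕ, ∃ q : ℚ, ∀ hp : p.Prime, (haveI : Fact p.Prime := ⟨hp⟩;
      T.app (ZMod p) (symb 1) = q • symb 1) := by
    intro p
    by_cases h : p.Prime
    · have : Fact p.Prime := ⟨h⟩
      obtain ⟨q, hq⟩ := K0_eq (T.app (ZMod p) (symb 1))
      exact ⟨q, fun _ => hq⟩
    · exact ⟨0, fun h' => absurd h' h⟩
  choose qp hqp using hp
  refine ⟨fun p => if p = 0 then q0 else qp p, fun F _ => ?_⟩
  have key : ∀ (P : Type) [Field P] (g : P →+* F) (q : ℚ), T.app P (symb 1) = q • symb 1 →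
      T.app F (symb 1) = q • symb 1 := by
    intro P _ g q h
    have h1 := T.nat P F g (symb 1)
    rw [map_symb_one, h, map_smul, map_symb_one] at h1
    exact h1
  have hc : CharP F (ringChar F) := ringChar.charP F
  by_cases h0 : ringChar F = 0
  · have : CharP F 0 := h0 ▸ hc
    have : CharZero F := CharP.charP_to_charZero F
    simp only [if_pos h0]
    exact key ℚ (algebraMap ℚ F) q0 hq0
  · have hpr : (ringChar F).Prime := (CharP.char_is_prime_or_zero F _).resolve_right h0
    have : Fact (ringChar F).Prime := ⟨hpr⟩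
    simp only [if_neg h0]
    exact key (ZMod (ringChar F)) (ZMod.castHom (dvd_refl _) F) _ (hqp _ hpr)

/-- natural endomorphisms of `K_n` are multiplications by rational numbers -/
theorem scalar (n : ℕ) : ∀ T : KHom n n, ∃ q : ℕ → ℚ, ∀ (F : Type) [Field F] (x : KQ F n),
    T.app F x = q (ringChar F) • x := by
  induction n with
  | zero =>
    intro T
    obtain ⟨q, hq⟩ := scalar_zero T
    refine ⟨q, fun F _ x => ?_⟩
    obtain ⟨r, rfl⟩ := K0_eq x
    rw [map_smul, hq, smul_comm]
  | succ n ih =>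
    intro T
    obtain ⟨q, hq⟩ := ih T.red
    refine ⟨q, fun F _ x => ?_⟩
    refine KQ_ext' (f := T.app F) (g := q (ringChar F) • LinearMap.id) (fun a => ?_) x
    rw [symb_succ, T.red_spec, hq, map_smul, LinearMap.smul_apply, LinearMap.id_apply]

/-- A functor from fields to `ℚ`-vector spaces (only the data). -/
structure FieldFunctor where
  /-- the vector space of a field -/
  obj : (F : Type) → [Field F] → Type
  [grp : (F : Type) → [Field F] → AddCommGroup (obj F)]
  [mdl : (F : Type) → [Field F] → Module ℚ (obj F)]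
  /-- the map of a homomorphism of fields -/
  map : {F F' : Type} → [Field F] → [Field F'] → (F →+* F') → obj F →ₗ[ℚ] obj F'

attribute [instance] FieldFunctor.grp FieldFunctor.mdl

/-- natural families of linear maps -/
structure NatHom (H G : FieldFunctor) where
  app : ∀ (F : Type) [Field F], H.obj F →ₗ[ℚ] G.obj F
  nat : ∀ (F F' : Type) [Field F] [Field F'] (g : F →+* F') (x : H.obj F),
    app F' (H.map g x) = G.map g (app F x)

/-- natural families of isomorphisms -/
structure NatIso (H G : FieldFunctor) where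
  app : ∀ (F : Type) [Field F], H.obj F ≃ₗ[ℚ] G.obj F
  nat : ∀ (F F' : Type) [Field F] [Field F'] (g : F →+* F') (x : H.obj F),
    app F' (H.map g x) = G.map g (app F x)

/-- `F ↦ K_n^M(F) ⊗ ℚ` -/
noncomputable abbrev Mil (n : ℕ) : FieldFunctor where
  obj F _ := KQ F n
  map g := KQ.map n g

/-- as natural map of Milnor K-groups -/
noncomputable def toK {n m : ℕ} (T : NatHom (Mil n) (Mil m)) : KHom n m where
  app F _ := T.app F
  nat F F' _ _ g x := T.nat F F' g x

theorem kappa (n d : ℕ) (T : NatHom (Mil n) (Mil (d + n))) :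
    ∃ κ : ∀ (F : Type) [Field F], KQ F d,
      (∀ (F F' : Type) [Field F] [Field F'] (g : F →+* F'), KQ.map d g (κ F) = κ F') ∧
      ∀ (F : Type) [Field F] (a : Fin n → Fˣ), T.app F (symb a : KQ F n) = cups n a (κ F) :=
  exists_kappa d n (toK T)

theorem vanish (n m : ℕ) (T : NatHom (Mil (n + 1 + m)) (Mil m)) (F : Type) [Field F]
    (x : KQ F (n + 1 + m)) : T.app F x = 0 := eq_zero m n (toK T) F x

/-- two natural maps to a functor naturally isomorphic to Milnor K-theory -/
theorem unique_hom (n : ℕ) (G : FieldFunctor) (s : NatIso (Mil n) G) (T : NatHom (Mil n) G) :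
    ∃ q : ℕ → ℚ, ∀ (F : Type) [Field F] (x : KQ F n),
      T.app F x = q (ringChar F) • s.app F x := by
  let T' : KHom n n :=
    { app := fun F _ => (s.app F).symm.toLinearMap.comp (T.app F)
      nat := fun F F' _ _ g x => by
        show (s.app F').symm (T.app F' ((Mil n).map g x)) = (Mil n).map g ((s.app F).symm (T.app F x))
        rw [LinearEquiv.symm_apply_eq, s.nat, LinearEquiv.apply_symm_apply, T.nat] }
  obtain ⟨q, hq⟩ := scalar n T'
  refine ⟨q, fun F _ x => ?_⟩
  have h : (s.app F).symm (T.app F x) = q (ringChar F) • x := hq F x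
  have h2 := congrArg (s.app F) h
  rw [LinearEquiv.apply_symm_apply, map_smul] at h2
  exact h2

theorem ringChar_eq {F F' : Type} [Field F] [Field F'] (g : F →+* F') :
    ringChar F' = ringChar F := by
  have : CharP F (ringChar F) := ringChar.charP F
  have := charP_of_injective_ringHom g.injective (ringChar F)
  exact ringChar.eq F' (ringChar F)

/-- the condition in degree `n` -/
theorem degree_n (n : ℕ) (H G : ℤ → FieldFunctor) (e : NatIso (Mil n) (H n))
    (s : NatIso (Mil n) (G n)) (Φ : ∀ i, NatIso (H i) (G i)) :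
    ∃ q : ℕ → ℚ, (∀ p, q p ≠ 0) ∧
      (∀ (F : Type) [Field F] (x : KQ F n),
        (Φ n).app F (e.app F x) = q (ringChar F) • s.app F x) ∧
      ∃ Ψ : ∀ i, NatIso (H i) (G i),
        (∀ (i : ℤ) (F : Type) [Field F] (y : (H i).obj F),
          (Φ i).app F y = q (ringChar F) • (Ψ i).app F y) ∧
        ∀ (F : Type) [Field F] (x : KQ F n), (Ψ n).app F (e.app F x) = s.app F x := by
  classical
  let T : NatHom (Mil n) (G n) :=
    { app := fun F _ => ((Φ n).app F : (H n).obj F →ₗ[ℚ] (G n).obj F).comp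
        (e.app F : (Mil n).obj F →ₗ[ℚ] (H n).obj F)
      nat := fun F F' _ _ g x => by
        show (Φ n).app F' (e.app F' ((Mil n).map g x)) = (G n).map g ((Φ n).app F (e.app F x))
        rw [e.nat, (Φ n).nat] }
  obtain ⟨q0, hq0⟩ := unique_hom n (G n) s T
  have hT : ∀ (F : Type) [Field F] (x : KQ F n),
      (Φ n).app F (e.app F x) = q0 (ringChar F) • s.app F x := fun F _ x => hq0 F x
  set q : ℕ → ℚ := fun p => if q0 p = 0 then 1 else q0 p with hqdef
  have hqne : ∀ p, q p ≠ 0 := by
    intro p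
    simp only [hqdef]
    split_ifs with h
    · exact one_ne_zero
    · exact h
  have hq : ∀ (F : Type) [Field F] (x : KQ F n),
      (Φ n).app F (e.app F x) = q (ringChar F) • s.app F x := by
    intro F _ x
    by_cases h : q0 (ringChar F) = 0
    · have h1 := hT F x
      rw [h, zero_smul] at h1
      have h2 : e.app F x = 0 := ((Φ n).app F).map_eq_zero_iff.1 h1
      have h3 : x = 0 := (e.app F).map_eq_zero_iff.1 h2
      rw [h2, h3, map_zero, map_zero, smul_zero]
    · rw [hT F x]
      simp only [hqdef, if_neg h]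
  refine ⟨q, hqne, hq, ?_⟩
  let Ψ : ∀ i, NatIso (H i) (G i) := fun i =>
    { app := fun F _ => ((Φ i).app F).trans
        (LinearEquiv.smulOfNeZero ℚ ((G i).obj F) (q (ringChar F))⁻¹ (inv_ne_zero (hqne _)))
      nat := fun F F' _ _ g x => by
        show (q (ringChar F'))⁻¹ • (Φ i).app F' ((H i).map g x) =
          (G i).map g ((q (ringChar F))⁻¹ • (Φ i).app F x)
        rw [map_smul, (Φ i).nat, ringChar_eq g] }
  have hΨ : ∀ (i : ℤ) (F : Type) [Field F] (y : (H i).obj F),
      (Ψ i).app F y = (q (ringChar F))⁻¹ • (Φ i).app F y := fun i F _ y => rfl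
  refine ⟨Ψ, fun i F _ y => ?_, fun F _ x => ?_⟩
  · rw [hΨ, smul_smul, mul_inv_cancel₀ (hqne _), one_smul]
  · rw [hΨ, hq, smul_smul, inv_mul_cancel₀ (hqne _), one_smul]

/-- the natural map underlying a natural isomorphism -/
def NatIso.hom {H G : FieldFunctor} (s : NatIso H G) : NatHom H G where
  app F _ := (s.app F).toLinearMap
  nat F F' _ _ g x := s.nat F F' g x

/-- composition: first `S`, then `T` -/
def NatHom.comp {H G E : FieldFunctor} (S : NatHom H G) (T : NatHom G E) : NatHom H E where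
  app F _ := (T.app F).comp (S.app F)
  nat F F' _ _ g x := by
    show T.app F' (S.app F' (H.map g x)) = E.map g (T.app F (S.app F x))
    rw [S.nat, T.nat]

/-- `T_F = q(char F) S_F` for all fields `F` -/
def Scaled (q : ℕ → ℚ) {H G : FieldFunctor} (S T : NatHom H G) : Prop :=
  ∀ (F : Type) [Field F] (x : H.obj F), T.app F x = q (ringChar F) • S.app F x

/-- `T` is multiplication by elements `κ_F` of `K_d(F)` compatible with all field
homomorphisms -/
def IsMul {n d : ℕ} (T : NatHom (Mil n) (Mil (d + n))) : Prop :=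
  ∃ κ : ∀ (F : Type) [Field F], KQ F d,
    (∀ (F F' : Type) [Field F] [Field F'] (g : F →+* F'), KQ.map d g (κ F) = κ F') ∧
    ∀ (F : Type) [Field F] (a : Fin n → Fˣ), T.app F (symb a : KQ F n) = cups n a (κ F)

theorem degree_n' (n : ℕ) (H G : ℤ → FieldFunctor) (e : NatIso (Mil n) (H n))
    (s : NatIso (Mil n) (G n)) (Φ : ∀ i, NatIso (H i) (G i)) :
    ∃ q : ℕ → ℚ, (∀ p, q p ≠ 0) ∧ Scaled q s.hom (e.hom.comp (Φ n).hom) ∧
      ∃ Ψ : ∀ i, NatIso (H i) (G i), (∀ i, Scaled q (Ψ i).hom (Φ i).hom) ∧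
        Scaled (fun _ => 1) s.hom (e.hom.comp (Ψ n).hom) := by
  obtain ⟨q, h0, h1, Ψ, h2, h3⟩ := degree_n n H G e s Φ
  refine ⟨q, h0, h1, Ψ, h2, fun F _ x => ?_⟩
  rw [one_smul]
  exact h3 F x

end Pool.Agent.X321.NT
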