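import Pool.Agent.TH826.DC.Cup
set_option autoImplicit false

/-!
# Rational Milnor K-theory of fields: operators and the universal property
-/

namespace Pool.Agent.X321.NT

open Pool.Agent.TH826.MK Pool.Agent.TH826.SX Pool.Agent.TH826.DC

section ext

variable {A : Type*} [CommRing A] {n : ℕ} {V : Type*} [AddCommGroup V] [Module ℚ V]

theorem KQ_ext {f g : KQ A n →ₗ[ℚ] V} (h : ∀ a : Fin n → Aˣ, f (symb a) = g (symb a)) :
    f = g := by
  apply Submodule.linearMap_qext
  apply Finsupp.lhom_ext'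
  intro a
  apply LinearMap.ext_ring
  exact h a

theorem KQ_ext' {f g : KQ A n →ₗ[ℚ] V} (h : ∀ a : Fin n → Aˣ, f (symb a) = g (symb a))
    (x : KQ A n) : f x = g x := by
  rw [KQ_ext h]

variable {A' A'' : Type*} [CommRing A'] [CommRing A'']

theorem map_comp (f : A →+* A') (g : A' →+* A'') (x : KQ A n) :
    KQ.map n g (KQ.map n f x) = KQ.map n (g.comp f) x := by
  refine KQ_ext' (f := (KQ.map n g).comp (KQ.map n f)) (g := KQ.map n (g.comp f)) (fun a => ?_) x
  rw [LinearMap.comp_apply, KQ.map_symb, KQ.map_symb, KQ.map_symb]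
  rfl

theorem map_id (x : KQ A n) : KQ.map n (RingHom.id A) x = x := by
  refine KQ_ext' (f := KQ.map n (RingHom.id A)) (g := LinearMap.id) (fun a => ?_) x
  rw [KQ.map_symb, LinearMap.id_apply]
  rfl

end ext

section cup

variable {L : Type*} [Field L] {n : ℕ}

theorem symb_succ (a : Fin (n + 1) → Lˣ) : symb a = cup (a 0) (symb (Fin.tail a)) := by
  rw [cup_symb, Fin.cons_self_tail]

theorem cup_mul (x y : Lˣ) (z : KQ L n) : cup (x * y) z = cup x z + cup y z := by
  refine KQ_ext' (f := cup (x * y)) (g := cup x + cup y) (fun a => ?_) z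
  rw [LinearMap.add_apply, cup_symb, cup_symb, cup_symb]
  have h := symb_update_mul (Fin.cons 1 a : Fin (n + 1) → Lˣ) 0 x y
  rwa [Fin.update_cons_zero, Fin.update_cons_zero, Fin.update_cons_zero] at h

theorem cup_one (z : KQ L n) : cup (1 : Lˣ) z = 0 := by
  have h := cup_mul (1 : Lˣ) 1 z
  rw [mul_one] at h
  exact left_eq_add.1 h

/-- `x ↦ {x} ∪ z` -/
noncomputable def cupHom (z : KQ L n) : Additive Lˣ →+ KQ L (n + 1) :=
  AddMonoidHom.mk' (fun x => cup x.toMul z) fun x y => by rw [toMul_add, cup_mul]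

theorem cup_zpow (x : Lˣ) (k : ℤ) (z : KQ L n) : cup (x ^ k) z = (k : ℚ) • cup x z := by
  have h := map_zsmul (cupHom z) k (Additive.ofMul x)
  rw [Int.cast_smul_eq_zsmul]
  exact h

theorem cup_neg_one (z : KQ L n) : cup (-1 : Lˣ) z = 0 := by
  have h := cup_zpow (-1 : Lˣ) 2 z
  rw [show ((-1 : Lˣ) ^ (2 : ℤ)) = 1 by rw [zpow_ofNat, neg_one_sq], cup_one] at h
  have h2 := congrArg (fun w => (((2 : ℤ) : ℚ)⁻¹) • w) h
  simp only [smul_zero, smul_smul] at h2
  rw [inv_mul_cancel₀ (by norm_num), one_smul] at h2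
  exact h2.symm

theorem cup_neg (x : Lˣ) (z : KQ L n) : cup (-x) z = cup x z := by
  rw [← neg_one_mul, cup_mul, cup_neg_one, zero_add]

theorem cup_self (x : Lˣ) (z : KQ L n) : cup x (cup x z) = 0 := by
  refine KQ_ext' (f := (cup x).comp (cup x)) (g := 0) (fun a => ?_) z
  rw [LinearMap.comp_apply, cup_symb, cup_symb, LinearMap.zero_apply]
  exact symb_self _ (i := 0) (j := (0 : Fin (n + 1)).succ) (Fin.succ_ne_zero _).symm (by
    rw [Fin.cons_succ, Fin.cons_zero, Fin.cons_zero])

theorem cup_anti (x y : Lˣ) (z : KQ L n) : cup x (cup y z) = -cup y (cup x z) := by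
  have h := cup_self (x * y) z
  rw [cup_mul, cup_mul, map_add, map_add, cup_self, cup_self, zero_add, add_zero] at h
  exact eq_neg_of_add_eq_zero_left h

theorem cup_st (x y : Lˣ) (h : (x : L) + y = 1) (z : KQ L n) : cup x (cup y z) = 0 := by
  refine KQ_ext' (f := (cup x).comp (cup y)) (g := 0) (fun a => ?_) z
  rw [LinearMap.comp_apply, cup_symb, cup_symb, LinearMap.zero_apply]
  exact symb_eq_zero' _ (i := 0) (j := (0 : Fin (n + 1)).succ) (Fin.succ_ne_zero _).symm (by
    rw [Fin.cons_succ, Fin.cons_zero, Fin.cons_zero]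
    exact h)

theorem map_cup {L' : Type*} [Field L'] (g : L →+* L') (x : Lˣ) (z : KQ L n) :
    KQ.map (n + 1) g (cup x z) = cup (Units.map (g : L →* L') x) (KQ.map n g z) := by
  refine KQ_ext' (f := (KQ.map (n + 1) g).comp (cup x))
    (g := (cup (Units.map (g : L →* L') x)).comp (KQ.map n g)) (fun a => ?_) z
  rw [LinearMap.comp_apply, LinearMap.comp_apply, cup_symb, KQ.map_symb, KQ.map_symb, cup_symb]
  congr 1
  funext i
  refine Fin.cases ?_ (fun i => ?_) i
  · rw [Fin.cons_zero, Fin.cons_zero]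
  · rw [Fin.cons_succ, Fin.cons_succ]

end cup

section op

variable {L : Type*} [Field L] {V : ℕ → Type*} [∀ m, AddCommGroup (V m)] [∀ m, Module ℚ (V m)]

/-- anticommuting operators killing the Steinberg relations -/
structure Op (L : Type*) [Field L] (V : ℕ → Type*) [∀ m, AddCommGroup (V m)]
    [∀ m, Module ℚ (V m)] where
  op : ∀ m, Lˣ → V m →ₗ[ℚ] V (m + 1)
  mul : ∀ m x y z, op m (x * y) z = op m x z + op m y z
  anti : ∀ m x y z, op (m + 1) x (op m y z) = -op (m + 1) y (op m x z)
  st : ∀ m (x y : Lˣ) z, (x : L) + y = 1 → op (m + 1) x (op m y z) = 0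

variable (O : Op L V)

/-- iterated operators -/
def Op.iter : (n : ℕ) → (Fin n → Lˣ) → V 0 → V n
  | 0, _, v => v
  | n + 1, a, v => O.op n (a 0) (Op.iter n (Fin.tail a) v)

theorem Op.iter_succ (n : ℕ) (a : Fin (n + 1) → Lˣ) (v : V 0) :
    O.iter (n + 1) a v = O.op n (a 0) (O.iter n (Fin.tail a) v) := rfl

theorem Op.iter_mul (v : V 0) : ∀ (n : ℕ) (a : Fin n → Lˣ) (i : Fin n) (x y : Lˣ),
    O.iter n (Function.update a i (x * y)) v = O.iter n (Function.update a i x) v +
      O.iter n (Function.update a i y) v := by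
  intro n
  induction n with
  | zero => intro a i; exact i.elim0
  | succ n ih =>
    intro a i x y
    refine Fin.cases ?_ (fun i => ?_) i
    · rw [Op.iter_succ, Op.iter_succ, Op.iter_succ, Function.update_self, Function.update_self,
        Function.update_self, Fin.tail_update_zero, Fin.tail_update_zero, Fin.tail_update_zero,
        O.mul]
    · rw [Op.iter_succ, Op.iter_succ, Op.iter_succ,
        Function.update_of_ne (Fin.succ_ne_zero i).symm,
        Function.update_of_ne (Fin.succ_ne_zero i).symm,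
        Function.update_of_ne (Fin.succ_ne_zero i).symm, Fin.tail_update_succ,
        Fin.tail_update_succ, Fin.tail_update_succ, ih, map_add]

theorem Op.iter_kill (v : V 0) (g : Lˣ) : ∀ (n : ℕ) (a : Fin n → Lˣ) (j : Fin n),
    (g : L) + a j = 1 → O.op n g (O.iter n a v) = 0 := by
  intro n
  induction n with
  | zero => intro a j; exact j.elim0
  | succ n ih =>
    intro a j
    refine Fin.cases ?_ (fun j => ?_) j
    · intro h
      rw [Op.iter_succ]
      exact O.st n _ _ _ h
    · intro h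
      rw [Op.iter_succ, O.anti, ih (Fin.tail a) j h, map_zero, neg_zero]

theorem Op.iter_st (v : V 0) : ∀ (n : ℕ) (a : Fin n → Lˣ) (i j : Fin n), i < j →
    (a i : L) + a j = 1 → O.iter n a v = 0 := by
  intro n
  induction n with
  | zero => intro a i; exact i.elim0
  | succ n ih =>
    intro a i j
    refine Fin.cases ?_ (fun i => ?_) i
    · refine Fin.cases ?_ (fun j => ?_) j
      · intro h; exact absurd h (lt_irrefl _)
      · intro _ h
        rw [Op.iter_succ]
        exact O.iter_kill v (a 0) n (Fin.tail a) j h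
    · refine Fin.cases ?_ (fun j => ?_) j
      · intro h; exact absurd h (Fin.not_lt_zero _)
      · intro hij h
        rw [Op.iter_succ, ih (Fin.tail a) i j (Fin.succ_lt_succ_iff.1 hij) h, map_zero]

/-- the homomorphism `{a_1, ..., a_n} ↦ a_1 ... a_n v` -/
noncomputable def Op.lift (v : V 0) (n : ℕ) : KQ L n →ₗ[ℚ] V n :=
  KQ.lift (fun a => O.iter n a v) (fun a i x y => O.iter_mul v n a i x y)
    (fun a ⟨i, j, hij, h⟩ => O.iter_st v n a i j hij h)

theorem Op.lift_symb (v : V 0) (n : ℕ) (a : Fin n → Lˣ) :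
    O.lift v n (symb a) = O.iter n a v := KQ.lift_symb _ _ _ a

theorem Op.lift_cup (v : V 0) (n : ℕ) (x : Lˣ) (z : KQ L n) :
    O.lift v (n + 1) (cup x z) = O.op n x (O.lift v n z) := by
  refine KQ_ext' (f := (O.lift v (n + 1)).comp (cup x)) (g := (O.op n x).comp (O.lift v n))
    (fun a => ?_) z
  rw [LinearMap.comp_apply, LinearMap.comp_apply, cup_symb, O.lift_symb, O.lift_symb,
    Op.iter_succ, Fin.cons_zero, Fin.tail_cons]

/-- maps compatible with multiplications agree if they agree in degree zero -/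
theorem eq_of_cup {f g : ∀ n, KQ L n →ₗ[ℚ] V n} (T : ∀ n, Lˣ → V n → V (n + 1))
    (h0 : f 0 (symb 1) = g 0 (symb 1))
    (hf : ∀ n x z, f (n + 1) (cup x z) = T n x (f n z))
    (hg : ∀ n x z, g (n + 1) (cup x z) = T n x (g n z)) (n : ℕ) : f n = g n := by
  refine KQ_ext fun a => ?_
  induction n with
  | zero =>
    rw [show a = 1 from Subsingleton.elim _ _]
    exact h0
  | succ n ih => rw [symb_succ, hf, hg, ih]

end op

end Pool.Agent.X321.NT
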