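import Pool.Agent.X321.NT.Op
set_option autoImplicit false

/-!
# Specialisation and residue at `t = 0`
-/

namespace Pool.Agent.X321.NT

open Pool.Agent.TH826.MK Pool.Agent.TH826.SX Pool.Agent.TH826.DC Polynomial

/-- A leading coefficient map -/
structure LC (L F : Type*) [Field L] [Field F] where
  lc : Lˣ →* Fˣ
  v : Lˣ → ℤ
  v_mul : ∀ x y, v (x * y) = v x + v y
  st : ∀ x y : Lˣ, (x : L) + y = 1 → (v x = 0 ∧ v y = 0 ∧ (lc x : F) + lc y = 1) ∨
    (lc y = 1 ∧ v y = 0) ∨ (lc x = 1 ∧ v x = 0) ∨ (v x = v y ∧ lc y = -lc x)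

section W

variable (F : Type*) [Field F]

/-- `K_m ⊕ K_{m-1}` -/
abbrev W (m : ℕ) : Type _ := KQ F m × KQ F (m - 1)

variable {F}

/-- `{x} ∪ w` for `w` in `K_{m-1}` -/
noncomputable def cup' (x : Fˣ) : (m : ℕ) → KQ F (m - 1) →ₗ[ℚ] KQ F m
  | 0 => 0
  | m + 1 => (cup x : KQ F m →ₗ[ℚ] KQ F (m + 1))

theorem cup'_mul (m : ℕ) (x y : Fˣ) (z : KQ F (m - 1)) :
    cup' (x * y) m z = cup' x m z + cup' y m z := by
  cases m with
  | zero => show (0 : KQ F 0) = 0 + 0; rw [add_zero]
  | succ m => exact cup_mul x y z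

theorem cup'_zpow (m : ℕ) (x : Fˣ) (k : ℤ) (z : KQ F (m - 1)) :
    cup' (x ^ k) m z = (k : ℚ) • cup' x m z := by
  cases m with
  | zero => show (0 : KQ F 0) = (k : ℚ) • (0 : KQ F 0); rw [smul_zero]
  | succ m => exact cup_zpow x k z

theorem cup'_one (m : ℕ) (z : KQ F (m - 1)) : cup' (1 : Fˣ) m z = 0 := by
  cases m with
  | zero => rfl
  | succ m => exact cup_one z

theorem cup'_neg (m : ℕ) (x : Fˣ) (z : KQ F (m - 1)) : cup' (-x) m z = cup' x m z := by
  cases m with
  | zero => rfl
  | succ m => exact cup_neg x z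

theorem cup_cup' (m : ℕ) (x y : Fˣ) (z : KQ F (m - 1)) :
    cup x (cup' y m z) = -cup y (cup' x m z) := by
  cases m with
  | zero =>
    show cup x (0 : KQ F 0) = -cup y (0 : KQ F 0)
    rw [map_zero, map_zero, neg_zero]
  | succ m => exact cup_anti x y z

theorem cup_cup'_self (m : ℕ) (x : Fˣ) (z : KQ F (m - 1)) : cup x (cup' x m z) = 0 := by
  cases m with
  | zero => exact map_zero _
  | succ m => exact cup_self x z

theorem cup_cup'_st (m : ℕ) (x y : Fˣ) (h : (x : F) + y = 1) (z : KQ F (m - 1)) :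
    cup x (cup' y m z) = 0 := by
  cases m with
  | zero => exact map_zero _
  | succ m => exact cup_st x y h z

theorem map_cup' {F' : Type*} [Field F'] (g : F →+* F') (m : ℕ) (x : Fˣ) (z : KQ F (m - 1)) :
    KQ.map m g (cup' x m z) = cup' (Units.map (g : F →* F') x) m (KQ.map (m - 1) g z) := by
  cases m with
  | zero => exact map_zero _
  | succ m => exact map_cup g x z

end W

section op

variable {L F : Type*} [Field L] [Field F] (c : LC L F)

/-- the operator of `x` on `K_m ⊕ K_{m-1}` -/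
noncomputable def lop (m : ℕ) (x : Lˣ) : W F m →ₗ[ℚ] W F (m + 1) :=
  LinearMap.prod ((cup (c.lc x)).comp (LinearMap.fst ℚ _ _))
    (((c.v x : ℚ) • LinearMap.fst ℚ (KQ F m) (KQ F (m - 1)) -
      (cup' (c.lc x) m).comp (LinearMap.snd ℚ _ _) : W F m →ₗ[ℚ] KQ F m))

theorem lop_apply (m : ℕ) (x : Lˣ) (z : W F m) :
    lop c m x z = ((cup (c.lc x) z.1, (c.v x : ℚ) • z.1 - cup' (c.lc x) m z.2) : W F (m + 1)) :=
  rfl

/-- the operators -/
noncomputable def lopO : Op L (W F) where
  op := lop c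
  mul m x y z := by
    rw [lop_apply, lop_apply, lop_apply, map_mul, c.v_mul, cup_mul, cup'_mul]
    refine Prod.ext rfl ?_
    show ((c.v x + c.v y : ℤ) : ℚ) • z.1 - (cup' (c.lc x) m z.2 + cup' (c.lc y) m z.2) =
      ((c.v x : ℚ) • z.1 - cup' (c.lc x) m z.2) + ((c.v y : ℚ) • z.1 - cup' (c.lc y) m z.2)
    push_cast
    rw [add_smul]
    abel
  anti m x y z := by
    rw [lop_apply, lop_apply, lop_apply, lop_apply]
    refine Prod.ext (cup_anti _ _ _) ?_
    show (c.v x : ℚ) • cup (c.lc y) z.1 -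
        cup (c.lc x) ((c.v y : ℚ) • z.1 - cup' (c.lc y) m z.2) =
      -((c.v y : ℚ) • cup (c.lc x) z.1 -
        cup (c.lc y) ((c.v x : ℚ) • z.1 - cup' (c.lc x) m z.2))
    rw [map_sub, map_sub, map_smul, map_smul, cup_cup' m (c.lc x) (c.lc y)]
    abel
  st m x y z h := by
    rw [lop_apply, lop_apply]
    refine Prod.ext ?_ ?_
    · show cup (c.lc x) (cup (c.lc y) z.1) = 0
      rcases c.st x y h with ⟨_, _, h1⟩ | ⟨h1, _⟩ | ⟨h1, _⟩ | ⟨_, h1⟩
      · exact cup_st _ _ h1 _
      · rw [h1, cup_one, map_zero]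
      · rw [h1, cup_one]
      · rw [h1, cup_neg, cup_self]
    · show (c.v x : ℚ) • cup (c.lc y) z.1 -
        cup (c.lc x) ((c.v y : ℚ) • z.1 - cup' (c.lc y) m z.2) = 0
      rcases c.st x y h with ⟨h2, h3, h1⟩ | ⟨h1, h2⟩ | ⟨h1, h2⟩ | ⟨h2, h1⟩
      · rw [h2, h3, Int.cast_zero, zero_smul, zero_smul, zero_sub, zero_sub, map_neg, neg_neg,
          cup_cup'_st m _ _ h1]
      · rw [h1, h2, cup_one, cup'_one, Int.cast_zero, zero_smul, sub_zero, map_zero, smul_zero,
          sub_zero]
      · rw [h1, h2, cup_one, Int.cast_zero, zero_smul, sub_zero]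
      · rw [h1, h2, map_sub, map_smul, cup_neg, cup'_neg, cup_cup'_self]
        abel

/-- specialisation and residue -/
noncomputable def spr (m : ℕ) : KQ L m →ₗ[ℚ] W F m :=
  (lopO c).lift ((symb 1, 0) : W F 0) m

theorem spr_cup (m : ℕ) (x : Lˣ) (z : KQ L m) : spr c (m + 1) (cup x z) = lop c m x (spr c m z) :=
  (lopO c).lift_cup _ m x z

theorem spr_zero : spr c 0 (symb 1) = ((symb 1, 0) : W F 0) := (lopO c).lift_symb _ 0 1

end op

section rat

variable {F : Type*} [Field F]

theorem tc_ne {p : F[X]} (hp : p ≠ 0) : p.trailingCoeff ≠ 0 := by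
  rwa [Ne, trailingCoeff_eq_zero]

/-- leading coefficient at zero -/
noncomputable def lcv (f : RatFunc F) : F := f.num.trailingCoeff / f.denom.trailingCoeff

/-- order at zero -/
noncomputable def ordv (f : RatFunc F) : ℤ :=
  (f.num.natTrailingDegree : ℤ) - f.denom.natTrailingDegree

theorem num_eq (p q : F[X]) (hq : q ≠ 0) :
    (algebraMap F[X] (RatFunc F) p / algebraMap F[X] (RatFunc F) q).num * q =
      p * (algebraMap F[X] (RatFunc F) p / algebraMap F[X] (RatFunc F) q).denom :=
  (RatFunc.num_mul_eq_mul_denom_iff hq).2 rfl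

theorem div_num_ne {p q : F[X]} (hp : p ≠ 0) (hq : q ≠ 0) :
    (algebraMap F[X] (RatFunc F) p / algebraMap F[X] (RatFunc F) q).num ≠ 0 := by
  exact RatFunc.num_ne_zero (div_ne_zero (RatFunc.algebraMap_ne_zero hp)
    (RatFunc.algebraMap_ne_zero hq))

theorem lcv_div {p q : F[X]} (_hp : p ≠ 0) (hq : q ≠ 0) :
    lcv (algebraMap F[X] (RatFunc F) p / algebraMap F[X] (RatFunc F) q) =
      p.trailingCoeff / q.trailingCoeff := by
  have h := congrArg trailingCoeff (num_eq p q hq)
  rw [trailingCoeff_mul, trailingCoeff_mul] at h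
  rw [lcv, div_eq_div_iff (tc_ne (RatFunc.denom_ne_zero _)) (tc_ne hq), h]

theorem ordv_div {p q : F[X]} (hp : p ≠ 0) (hq : q ≠ 0) :
    ordv (algebraMap F[X] (RatFunc F) p / algebraMap F[X] (RatFunc F) q) =
      (p.natTrailingDegree : ℤ) - q.natTrailingDegree := by
  have h := congrArg natTrailingDegree (num_eq p q hq)
  rw [natTrailingDegree_mul (div_num_ne hp hq) hq,
    natTrailingDegree_mul hp (RatFunc.denom_ne_zero _)] at h
  rw [ordv]
  omega

theorem exists_div (x : (RatFunc F)ˣ) : ∃ p q : F[X], p ≠ 0 ∧ q ≠ 0 ∧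
    (x : RatFunc F) = algebraMap F[X] (RatFunc F) p / algebraMap F[X] (RatFunc F) q := by
  refine ⟨(x : RatFunc F).num, (x : RatFunc F).denom, ?_, RatFunc.denom_ne_zero _,
    (RatFunc.num_div_denom _).symm⟩
  exact RatFunc.num_ne_zero x.ne_zero

theorem lcv_mul (x y : (RatFunc F)ˣ) :
    lcv ((x : RatFunc F) * (y : RatFunc F)) = lcv (x : RatFunc F) * lcv (y : RatFunc F) := by
  obtain ⟨p, q, hp, hq, hx⟩ := exists_div x
  obtain ⟨p', q', hp', hq', hy⟩ := exists_div y
  rw [hx, hy, div_mul_div_comm, ← map_mul, ← map_mul, lcv_div (mul_ne_zero hp hp')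
    (mul_ne_zero hq hq'), lcv_div hp hq, lcv_div hp' hq', trailingCoeff_mul, trailingCoeff_mul,
    div_mul_div_comm]

theorem ordv_mul (x y : (RatFunc F)ˣ) :
    ordv ((x : RatFunc F) * (y : RatFunc F)) = ordv (x : RatFunc F) + ordv (y : RatFunc F) := by
  obtain ⟨p, q, hp, hq, hx⟩ := exists_div x
  obtain ⟨p', q', hp', hq', hy⟩ := exists_div y
  rw [hx, hy, div_mul_div_comm, ← map_mul, ← map_mul, ordv_div (mul_ne_zero hp hp')
    (mul_ne_zero hq hq'), ordv_div hp hq, ordv_div hp' hq', natTrailingDegree_mul hp hp',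
    natTrailingDegree_mul hq hq']
  push_cast
  ring

theorem lcv_ne (x : (RatFunc F)ˣ) : lcv (x : RatFunc F) ≠ 0 := by
  obtain ⟨p, q, hp, hq, hx⟩ := exists_div x
  rw [hx, lcv_div hp hq]
  exact div_ne_zero (tc_ne hp) (tc_ne hq)

theorem lcv_one : lcv (1 : RatFunc F) = 1 := by
  have h := lcv_div (F := F) (p := 1) (q := 1) one_ne_zero one_ne_zero
  rw [map_one, div_one] at h
  rw [h, div_self (tc_ne one_ne_zero)]

/-- the leading coefficient as homomorphism -/
noncomputable def lcH : (RatFunc F)ˣ →* Fˣ where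
  toFun x := Units.mk0 (lcv (x : RatFunc F)) (lcv_ne x)
  map_one' := by
    apply Units.ext
    exact lcv_one
  map_mul' x y := by
    apply Units.ext
    rw [Units.val_mk0, Units.val_mul, Units.val_mul, Units.val_mk0, Units.val_mk0]
    exact lcv_mul x y

theorem lcH_val (x : (RatFunc F)ˣ) : ((lcH x : Fˣ) : F) = lcv (x : RatFunc F) := rfl

/-- the four cases for `p + r = q` -/
theorem tc_cases {p q r : F[X]} (hp : p ≠ 0) (hq : q ≠ 0) (hr : r ≠ 0) (h : p + r = q) :
    (p.natTrailingDegree = q.natTrailingDegree ∧ r.natTrailingDegree = q.natTrailingDegree ∧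
      p.trailingCoeff + r.trailingCoeff = q.trailingCoeff) ∨
    (r.natTrailingDegree = q.natTrailingDegree ∧ r.trailingCoeff = q.trailingCoeff) ∨
    (p.natTrailingDegree = q.natTrailingDegree ∧ p.trailingCoeff = q.trailingCoeff) ∨
    (p.natTrailingDegree = r.natTrailingDegree ∧ r.trailingCoeff = -p.trailingCoeff) := by
  have key : ∀ (u w z : F[X]), w ≠ 0 → u + w = z → w.natTrailingDegree < u.natTrailingDegree →
      w.natTrailingDegree = z.natTrailingDegree ∧ w.trailingCoeff = z.trailingCoeff := by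
    intro u w z hw huz hlt
    have h1 : z.coeff w.natTrailingDegree = w.trailingCoeff := by
      rw [← huz, coeff_add, coeff_eq_zero_of_lt_natTrailingDegree hlt, zero_add]
      rfl
    have h2 : ∀ k < w.natTrailingDegree, z.coeff k = 0 := by
      intro k hk
      rw [← huz, coeff_add, coeff_eq_zero_of_lt_natTrailingDegree (hk.trans hlt),
        coeff_eq_zero_of_lt_natTrailingDegree hk, add_zero]
    have hz : z.coeff w.natTrailingDegree ≠ 0 := by rw [h1]; exact tc_ne hw
    have hz0 : z ≠ 0 := by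
      intro e
      rw [e, coeff_zero] at hz
      exact hz rfl
    have h3 : w.natTrailingDegree = z.natTrailingDegree := by
      refine le_antisymm ?_ (natTrailingDegree_le_of_ne_zero hz)
      by_contra hcon
      push Not at hcon
      exact tc_ne hz0 (h2 _ hcon)
    exact ⟨h3, by rw [← h1, h3]; rfl⟩
  rcases lt_trichotomy p.natTrailingDegree r.natTrailingDegree with hlt | heq | hlt
  · exact Or.inr (Or.inr (Or.inl (key r p q hp (by rw [add_comm]; exact h) hlt)))
  · have h1 : q.coeff p.natTrailingDegree = p.trailingCoeff + r.trailingCoeff := by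
      rw [← h, coeff_add]
      show _ = _ + r.coeff r.natTrailingDegree
      rw [← heq]
      rfl
    by_cases hz : p.trailingCoeff + r.trailingCoeff = 0
    · exact Or.inr (Or.inr (Or.inr ⟨heq, eq_neg_of_add_eq_zero_right hz⟩))
    · have h2 : ∀ k < p.natTrailingDegree, q.coeff k = 0 := by
        intro k hk
        rw [← h, coeff_add, coeff_eq_zero_of_lt_natTrailingDegree hk,
          coeff_eq_zero_of_lt_natTrailingDegree (heq ▸ hk), add_zero]
      have h3 : p.natTrailingDegree = q.natTrailingDegree := by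
        refine le_antisymm ?_ (natTrailingDegree_le_of_ne_zero (by rw [h1]; exact hz))
        by_contra hcon
        push Not at hcon
        exact tc_ne hq (h2 _ hcon)
      exact Or.inl ⟨h3, by rw [← heq, h3], by rw [← h1, h3]; rfl⟩
  · exact Or.inr (Or.inl (key p r q hr h hlt))

/-- the leading coefficient at `t = 0` -/
noncomputable def lc0 : LC (RatFunc F) F where
  lc := lcH
  v x := ordv (x : RatFunc F)
  v_mul x y := ordv_mul x y
  st x y h := by
    -- common denominator
    set q : F[X] := (x : RatFunc F).denom with hqd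
    have hq : q ≠ 0 := RatFunc.denom_ne_zero _
    set p : F[X] := (x : RatFunc F).num with hpd
    have hp : p ≠ 0 := RatFunc.num_ne_zero x.ne_zero
    have hx : (x : RatFunc F) = algebraMap F[X] (RatFunc F) p / algebraMap F[X] (RatFunc F) q :=
      (RatFunc.num_div_denom _).symm
    have hq' : algebraMap F[X] (RatFunc F) q ≠ 0 := RatFunc.algebraMap_ne_zero hq
    set r : F[X] := q - p with hr
    have hy : (y : RatFunc F) = algebraMap F[X] (RatFunc F) r / algebraMap F[X] (RatFunc F) q := by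
      have h1 : (y : RatFunc F) = 1 - x := by rw [← h]; ring
      rw [h1, hx, hr, map_sub, sub_div, div_self hq']
    have hr0 : r ≠ 0 := by
      intro e
      have := y.ne_zero
      rw [hy, e, map_zero, zero_div] at this
      exact this rfl
    have hpr : p + r = q := by rw [hr]; ring
    have hlx : ((lcH x : Fˣ) : F) = p.trailingCoeff / q.trailingCoeff := by
      rw [lcH_val, hx, lcv_div hp hq]
    have hly : ((lcH y : Fˣ) : F) = r.trailingCoeff / q.trailingCoeff := by
      rw [lcH_val, hy, lcv_div hr0 hq]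
    have hvx : ordv (x : RatFunc F) = (p.natTrailingDegree : ℤ) - q.natTrailingDegree := by
      rw [hx, ordv_div hp hq]
    have hvy : ordv (y : RatFunc F) = (r.natTrailingDegree : ℤ) - q.natTrailingDegree := by
      rw [hy, ordv_div hr0 hq]
    have hqt := tc_ne hq
    rcases tc_cases hp hq hr0 hpr with ⟨h1, h2, h3⟩ | ⟨h1, h2⟩ | ⟨h1, h2⟩ | ⟨h1, h2⟩
    · left
      refine ⟨by rw [hvx, h1, sub_self], by rw [hvy, h2, sub_self], ?_⟩
      rw [hlx, hly, ← add_div, h3, div_self hqt]
    · right; left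
      refine ⟨Units.ext ?_, by rw [hvy, h1, sub_self]⟩
      rw [hly, h2, div_self hqt, Units.val_one]
    · right; right; left
      refine ⟨Units.ext ?_, by rw [hvx, h1, sub_self]⟩
      rw [hlx, h2, div_self hqt, Units.val_one]
    · right; right; right
      refine ⟨by rw [hvx, hvy, h1], Units.ext ?_⟩
      rw [Units.val_neg, hlx, hly, h2, neg_div]

end rat

end Pool.Agent.X321.NT
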