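import Pool.Agent.X321.NT.Res
set_option autoImplicit false

/-!
# The homomorphisms `F(t) → F'(t)`, `t ↦ c t`
-/

namespace Pool.Agent.X321.NT

open Pool.Agent.TH826.MK Pool.Agent.TH826.SX Pool.Agent.TH826.DC Polynomial

section sub

variable {F F' : Type*} [Field F] [Field F'] (g : F →+* F') (c : F'ˣ)

/-- `p(t) ↦ (g p)(c t)` -/
noncomputable def scp : F[X] →+* F'[X] := eval₂RingHom (C.comp g) (C (c : F') * X)

theorem scp_coeff (p : F[X]) (k : ℕ) : (scp g c p).coeff k = g (p.coeff k) * (c : F') ^ k := by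
  induction p using Polynomial.induction_on' with
  | add p q hp hq => rw [map_add, coeff_add, coeff_add, map_add, add_mul, hp, hq]
  | monomial m a =>
    rw [scp, coe_eval₂RingHom, eval₂_monomial, RingHom.comp_apply, mul_pow, ← C_pow, ← mul_assoc,
      ← C_mul, coeff_C_mul_X_pow, coeff_monomial]
    by_cases h : k = m
    · rw [if_pos h, if_pos h.symm, h]
    · rw [if_neg h, if_neg (Ne.symm h), map_zero, zero_mul]

theorem scp_coeff_eq_zero (p : F[X]) (k : ℕ) : (scp g c p).coeff k = 0 ↔ p.coeff k = 0 := by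
  rw [scp_coeff, mul_eq_zero, or_iff_left (pow_ne_zero k c.ne_zero), map_eq_zero]

theorem scp_inj : Function.Injective (scp g c) := by
  rw [injective_iff_map_eq_zero]
  intro p hp
  ext k
  rw [coeff_zero, ← scp_coeff_eq_zero g c, hp, coeff_zero]

theorem scp_ne {p : F[X]} (hp : p ≠ 0) : scp g c p ≠ 0 := by
  rw [Ne, map_eq_zero_iff _ (scp_inj g c)]
  exact hp

theorem scp_ntd {p : F[X]} (hp : p ≠ 0) :
    (scp g c p).natTrailingDegree = p.natTrailingDegree := by
  refine le_antisymm (natTrailingDegree_le_of_ne_zero ?_) (natTrailingDegree_le_of_ne_zero ?_)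
  · rw [Ne, scp_coeff_eq_zero]
    exact tc_ne hp
  · rw [Ne, ← scp_coeff_eq_zero g c]
    exact tc_ne (scp_ne g c hp)

theorem scp_tc {p : F[X]} (hp : p ≠ 0) :
    (scp g c p).trailingCoeff = g p.trailingCoeff * (c : F') ^ p.natTrailingDegree := by
  rw [trailingCoeff, scp_ntd g c hp, scp_coeff]
  rfl

/-- the homomorphism `F(t) → F'(t)`, `t ↦ c t` -/
noncomputable def sc : RatFunc F →+* RatFunc F' :=
  RatFunc.mapRingHom (scp g c) (nonZeroDivisors_le_comap_nonZeroDivisors_of_injective _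
    (scp_inj g c))

theorem sc_algebraMap (p : F[X]) :
    sc g c (algebraMap F[X] (RatFunc F) p) = algebraMap F'[X] (RatFunc F') (scp g c p) := by
  rw [sc, RatFunc.coe_mapRingHom_eq_coe_map]
  have h := RatFunc.map_apply_div (φ := scp g c)
    (hφ := nonZeroDivisors_le_comap_nonZeroDivisors_of_injective _ (scp_inj g c)) p 1
  rw [map_one, map_one, map_one, div_one, div_one] at h
  exact h

theorem sc_div (p q : F[X]) :
    sc g c (algebraMap F[X] (RatFunc F) p / algebraMap F[X] (RatFunc F) q) =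
      algebraMap F'[X] (RatFunc F') (scp g c p) / algebraMap F'[X] (RatFunc F') (scp g c q) := by
  rw [map_div₀, sc_algebraMap, sc_algebraMap]

theorem sc_C (a : F) : sc g c (RatFunc.C a) = RatFunc.C (g a) := by
  rw [← RatFunc.algebraMap_C, sc_algebraMap, scp, coe_eval₂RingHom, eval₂_C, RingHom.comp_apply,
    RatFunc.algebraMap_C]

theorem sc_X : sc g c RatFunc.X = RatFunc.C (c : F') * RatFunc.X := by
  rw [← RatFunc.algebraMap_X, sc_algebraMap, scp, coe_eval₂RingHom, eval₂_X, map_mul,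
    RatFunc.algebraMap_C, RatFunc.algebraMap_X]

theorem sc_comp_C : (sc g c).comp RatFunc.C = (RatFunc.C).comp g := by
  ext a
  exact sc_C g c a

/-- the map of units -/
noncomputable abbrev um {A B : Type*} [CommRing A] [CommRing B] (f : A →+* B) : Aˣ →* Bˣ :=
  Units.map (f : A →* B)

theorem um_val {A B : Type*} [CommRing A] [CommRing B] (f : A →+* B) (x : Aˣ) :
    ((um f x : Bˣ) : B) = f (x : A) := rfl

theorem lc0_sc (x : (RatFunc F)ˣ) :
    lc0.lc (um (sc g c) x) = um g (lc0.lc x) * c ^ (lc0.v x) := by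
  apply Units.ext
  obtain ⟨p, q, hp, hq, hx⟩ := exists_div x
  have h1 : ((lc0.lc (um (sc g c) x) : F'ˣ) : F') = lcv (sc g c (x : RatFunc F)) := rfl
  have h2 : lc0.v x = (p.natTrailingDegree : ℤ) - q.natTrailingDegree := by
    show ordv (x : RatFunc F) = _
    rw [hx, ordv_div hp hq]
  have h3 : ((lc0.lc x : Fˣ) : F) = p.trailingCoeff / q.trailingCoeff := by
    show lcv (x : RatFunc F) = _
    rw [hx, lcv_div hp hq]
  rw [h1, hx, sc_div, lcv_div (scp_ne g c hp) (scp_ne g c hq), scp_tc g c hp, scp_tc g c hq, h2,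
    Units.val_mul, um_val, h3, map_div₀, Units.val_zpow_eq_zpow_val, zpow_sub₀ c.ne_zero,
    zpow_natCast, zpow_natCast, div_mul_div_comm]

theorem v_sc (x : (RatFunc F)ˣ) : lc0.v (um (sc g c) x) = lc0.v x := by
  obtain ⟨p, q, hp, hq, hx⟩ := exists_div x
  have h1 : lc0.v (um (sc g c) x) = ordv (sc g c (x : RatFunc F)) := rfl
  have h2 : lc0.v x = ordv (x : RatFunc F) := rfl
  rw [h1, h2, hx, sc_div, ordv_div (scp_ne g c hp) (scp_ne g c hq), ordv_div hp hq,
    scp_ntd g c hp, scp_ntd g c hq]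

/-- constants -/
theorem lc0_C (a : Fˣ) : lc0.lc (um (RatFunc.C : F →+* RatFunc F) a) = a := by
  apply Units.ext
  show lcv (RatFunc.C (a : F)) = a
  have h := lcv_div (F := F) (p := C (a : F)) (q := 1) (C_ne_zero.2 a.ne_zero) one_ne_zero
  rw [map_one, div_one, RatFunc.algebraMap_C] at h
  rw [h]
  have e1 : (C (a : F)).trailingCoeff = a := by
    rw [trailingCoeff, natTrailingDegree_C, coeff_C_zero]
  have e2 : (1 : F[X]).trailingCoeff = 1 := by
    rw [trailingCoeff, natTrailingDegree_one, coeff_one_zero]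
  rw [e1, e2, div_one]

theorem v_C (a : Fˣ) : lc0.v (um (RatFunc.C : F →+* RatFunc F) a) = 0 := by
  show ordv (RatFunc.C (a : F)) = 0
  have h := ordv_div (F := F) (p := C (a : F)) (q := 1) (C_ne_zero.2 a.ne_zero) one_ne_zero
  rw [map_one, div_one, RatFunc.algebraMap_C] at h
  rw [h, natTrailingDegree_C, natTrailingDegree_one, sub_self]

/-- the variable -/
noncomputable def tt (F : Type*) [Field F] : (RatFunc F)ˣ := Units.mk0 RatFunc.X RatFunc.X_ne_zero

theorem um_sc_tt : um (sc g c) (tt F) = um (RatFunc.C : F' →+* RatFunc F') c * tt F' := by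
  apply Units.ext
  rw [um_val, tt, Units.val_mk0, sc_X]
  rfl

theorem lc0_tt : lc0.lc (tt F) = 1 := by
  apply Units.ext
  show lcv (RatFunc.X : RatFunc F) = 1
  have h := lcv_div (F := F) (p := X) (q := 1) X_ne_zero one_ne_zero
  rw [map_one, div_one, RatFunc.algebraMap_X] at h
  rw [h]
  have e1 : (X : F[X]).trailingCoeff = 1 := by
    rw [trailingCoeff, natTrailingDegree_X, coeff_X_one]
  have e2 : (1 : F[X]).trailingCoeff = 1 := by
    rw [trailingCoeff, natTrailingDegree_one, coeff_one_zero]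
  rw [e1, e2, div_one]

theorem v_tt : lc0.v (tt F) = 1 := by
  show ordv (RatFunc.X : RatFunc F) = 1
  have h := ordv_div (F := F) (p := X) (q := 1) X_ne_zero one_ne_zero
  rw [map_one, div_one, RatFunc.algebraMap_X] at h
  rw [h, natTrailingDegree_X, natTrailingDegree_one]
  norm_num

end sub

section main

variable {F F' : Type*} [Field F] [Field F'] (g : F →+* F') (c : F'ˣ)

/-- the effect of `t ↦ c t` on specialisation and residue -/
noncomputable def Gc (m : ℕ) : W F m →ₗ[ℚ] W F' m :=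
  LinearMap.prod ((KQ.map m g).comp (LinearMap.fst ℚ _ _) +
    (cup' c m).comp ((KQ.map (m - 1) g).comp (LinearMap.snd ℚ _ _)))
    ((KQ.map (m - 1) g).comp (LinearMap.snd ℚ _ _))

theorem Gc_apply (m : ℕ) (z : W F m) : Gc g c m z =
    ((KQ.map m g z.1 + cup' c m (KQ.map (m - 1) g z.2), KQ.map (m - 1) g z.2) : W F' m) := rfl

theorem Gc_lop (m : ℕ) (x : (RatFunc F)ˣ) (z : W F m) :
    Gc g c (m + 1) (lop lc0 m x z) = lop lc0 m (um (sc g c) x) (Gc g c m z) := by
  rw [lop_apply, Gc_apply, lop_apply, Gc_apply, lc0_sc, v_sc]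
  have h2 : KQ.map m g ((lc0.v x : ℚ) • z.1 - cup' (lc0.lc x) m z.2) =
      (lc0.v x : ℚ) • KQ.map m g z.1 -
        cup' (um g (lc0.lc x)) m (KQ.map (m - 1) g z.2) := by
    rw [map_sub, map_smul, map_cup']
  refine Prod.ext ?_ ?_
  · show KQ.map (m + 1) g (cup (lc0.lc x) z.1) +
      cup c (KQ.map m g ((lc0.v x : ℚ) • z.1 - cup' (lc0.lc x) m z.2)) =
      cup (um g (lc0.lc x) * c ^ lc0.v x)
        (KQ.map m g z.1 + cup' c m (KQ.map (m - 1) g z.2))
    rw [h2, map_cup, cup_mul, map_add, map_add, cup_zpow, cup_zpow, cup_cup'_self, smul_zero,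
      add_zero, map_sub, map_smul, cup_cup' m c]
    show cup (um g (lc0.lc x)) (KQ.map m g z.1) + _ = _
    abel
  · show KQ.map m g ((lc0.v x : ℚ) • z.1 - cup' (lc0.lc x) m z.2) =
      (lc0.v x : ℚ) • (KQ.map m g z.1 + cup' c m (KQ.map (m - 1) g z.2)) -
        cup' (um g (lc0.lc x) * c ^ lc0.v x) m (KQ.map (m - 1) g z.2)
    rw [h2, cup'_mul, cup'_zpow, smul_add]
    abel

theorem map_symb_one {A B : Type*} [CommRing A] [CommRing B] (f : A →+* B) :
    KQ.map 0 f (symb 1) = symb 1 := by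
  rw [KQ.map_symb]
  congr 1
  exact Subsingleton.elim _ _

/-- specialisation and residue after `t ↦ c t` -/
theorem spr_sc (m : ℕ) (z : KQ (RatFunc F) m) :
    spr lc0 m (KQ.map m (sc g c) z) = Gc g c m (spr lc0 m z) := by
  have h := eq_of_cup (L := RatFunc F) (V := W F')
    (f := fun m => (spr lc0 m).comp (KQ.map m (sc g c)))
    (g := fun m => (Gc g c m).comp (spr lc0 m))
    (fun n x w => lop lc0 n (um (sc g c) x) w) ?_ ?_ ?_ m
  · exact congrArg (fun f => f z) h
  · show spr lc0 0 (KQ.map 0 (sc g c) (symb 1)) = Gc g c 0 (spr lc0 0 (symb 1))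
    rw [map_symb_one, spr_zero, spr_zero, Gc_apply]
    refine Prod.ext ?_ ?_
    · show symb 1 = KQ.map 0 g (symb 1) + 0
      rw [map_symb_one, add_zero]
    · show (0 : KQ F' 0) = KQ.map 0 g 0
      rw [map_zero]
  · intro n x z
    show spr lc0 (n + 1) (KQ.map (n + 1) (sc g c) (cup x z)) = _
    rw [map_cup, spr_cup]
    rfl
  · intro n x z
    show Gc g c (n + 1) (spr lc0 (n + 1) (cup x z)) = _
    rw [spr_cup, Gc_lop]
    rfl

/-- specialisation and residue of constants -/
theorem spr_C (m : ℕ) (z : KQ F m) :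
    spr lc0 m (KQ.map m (RatFunc.C : F →+* RatFunc F) z) = ((z, 0) : W F m) := by
  have h := eq_of_cup (L := F) (V := W F)
    (f := fun m => (spr lc0 m).comp (KQ.map m (RatFunc.C : F →+* RatFunc F)))
    (g := fun m => LinearMap.inl ℚ (KQ F m) (KQ F (m - 1)))
    (fun n x w => lop lc0 n (um (RatFunc.C : F →+* RatFunc F) x) w) ?_ ?_ ?_ m
  · exact congrArg (fun f => f z) h
  · show spr lc0 0 (KQ.map 0 (RatFunc.C : F →+* RatFunc F) (symb 1)) = ((symb 1, 0) : W F 0)
    rw [map_symb_one, spr_zero]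
  · intro n x z
    show spr lc0 (n + 1) (KQ.map (n + 1) (RatFunc.C : F →+* RatFunc F) (cup x z)) = _
    rw [map_cup, spr_cup]
    rfl
  · intro n x z
    show ((cup x z, 0) : W F (n + 1)) = lop lc0 n (um (RatFunc.C : F →+* RatFunc F) x) ((z, 0) : W F n)
    rw [lop_apply, lc0_C, v_C]
    refine Prod.ext rfl ?_
    show (0 : KQ F n) = ((0 : ℤ) : ℚ) • z - cup' x n 0
    rw [map_zero, Int.cast_zero, zero_smul, sub_zero]

theorem map_C_inj (m : ℕ) :
    Function.Injective (KQ.map m (RatFunc.C : F →+* RatFunc F)) := by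
  intro x y h
  have h1 := congrArg (spr lc0 m) h
  rw [spr_C, spr_C] at h1
  exact (Prod.ext_iff.1 h1).1

end main

end Pool.Agent.X321.NT
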